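import Mathlib

set_option autoImplicit false
open Real MeasureTheory Finset

namespace Pool.Agent.Results.MP_205740_an.UnboundedRatio

/-- `2π`-periodic weight function -/
def IsWeight (W : ℝ → ℝ) : Prop :=
  Measurable W ∧ (∀ x, 0 ≤ W x) ∧ (∀ x, W (x + 2 * π) = W x) ∧
    IntervalIntegrable W volume (-π) π ∧ 0 < ∫ x in (-π)..π, W x

/-- `p` is a real trigonometric polynomial of degree at most `n` -/
def IsTrigPoly (n : ℕ) (p : ℝ → ℝ) : Prop :=
  ∃ a b : ℕ → ℝ, ∀ x, p x = ∑ k ∈ range (n + 1), (a k * cos (k * x) + b k * sin (k * x))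

/-- a Chebyshev-type trigonometric quadrature of degree `n` for `W` with `N` nodes exists -/
def HasQuadrature (W : ℝ → ℝ) (n N : ℕ) : Prop :=
  ∃ (θ : Fin N → ℝ) (w : ℝ), Monotone θ ∧
    ∀ p : ℝ → ℝ, IsTrigPoly n p → ∫ x in (-π)..π, p x * W x = w * ∑ j, p (θ j)

/-- `N_W(n)`: the least number of nodes -/
noncomputable def minNodes (W : ℝ → ℝ) (n : ℕ) : ℕ := sInf {N | HasQuadrature W n N}

/-- the least `N₀` such that quadratures with exactly `N` nodes exist for all `N ≥ N₀` -/
noncomputable def minNodesBar (W : ℝ → ℝ) (n : ℕ) : ℕ :=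
  sInf {N₀ | ∀ N, N₀ ≤ N → HasQuadrature W n N}

/-- `h` is a `2π`-periodic measurable function with `m < h < M` almost everywhere -/
def IsPerturbation (m M : ℝ) (h : ℝ → ℝ) : Prop :=
  Measurable h ∧ (∀ x, h (x + 2 * π) = h x) ∧ ∀ᵐ x, m < h x ∧ h x < M

/-- The statement asked about in Q1. -/
def Q1 : Prop :=
  ∀ m M : ℝ, 0 < m → m < M → ∃ c C : ℝ, 0 < c ∧ 0 < C ∧
    ∀ W h : ℝ → ℝ, IsWeight W → IsPerturbation m M h → ∀ n : ℕ, 1 ≤ n →
      (c * minNodes W n ≤ minNodes (fun x => h x * W x) n ∧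
        minNodes (fun x => h x * W x) n ≤ C * minNodes W n) ∧
      (c * minNodesBar W n ≤ minNodesBar (fun x => h x * W x) n ∧
        minNodesBar (fun x => h x * W x) n ≤ C * minNodesBar W n)

/-! ### Integrals -/

/-- the even moments -/
noncomputable def I (k : ℕ) : ℝ := ∫ x in (-π)..π, sin x ^ (2 * k)

theorem I_succ (k : ℕ) : I (k + 1) = (2 * k + 1) / (2 * k + 2) * I k := by
  unfold I
  have h := integral_sin_pow (a := -π) (b := π) (n := 2 * k)
  have e : 2 * (k + 1) = 2 * k + 2 := by ring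
  rw [e, h]
  simp

theorem I_pos (k : ℕ) : 0 < I k := by
  induction k with
  | zero => simp [I, pi_pos]
  | succ k ih =>
    rw [I_succ]
    positivity

theorem int_odd (j : ℕ) : ∫ x in (-π)..π, sin x ^ (2 * j + 1) = 0 := by
  have h := intervalIntegral.integral_comp_neg (a := -π) (b := π) (fun x => sin x ^ (2 * j + 1))
  simp only [sin_neg, neg_neg] at h
  have h2 : ∀ x : ℝ, (-sin x) ^ (2 * j + 1) = -(sin x ^ (2 * j + 1)) :=
    fun x => Odd.neg_pow ⟨j, rfl⟩ _
  simp only [h2] at h
  rw [intervalIntegral.integral_neg] at h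
  linarith

theorem int_cos (j : ℕ) : ∫ x in (-π)..π, sin x ^ j * cos x = 0 := by
  have h := integral_sin_pow_mul_cos_pow_odd (a := -π) (b := π) j 0
  simpa using h

/-- the integral of a trigonometric polynomial of degree two against our weights -/
theorem int_main (k : ℕ) (u v a0 a1 b1 a2 b2 : ℝ) :
    ∫ x in (-π)..π, (a0 + a1 * cos x + b1 * sin x + a2 * cos (2 * x) + b2 * sin (2 * x)) *
      (u * sin x ^ (2 * k) + v * sin x ^ (2 * k + 1)) =
    (a0 + a2) * u * I k + (b1 * v - 2 * a2 * u) * I (k + 1) := by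
  have e : ∀ x : ℝ, (a0 + a1 * cos x + b1 * sin x + a2 * cos (2 * x) + b2 * sin (2 * x)) *
      (u * sin x ^ (2 * k) + v * sin x ^ (2 * k + 1)) =
      ((a0 + a2) * u * sin x ^ (2 * k) + ((a0 + a2) * v + b1 * u) * sin x ^ (2 * k + 1) +
        (b1 * v - 2 * a2 * u) * sin x ^ (2 * (k + 1)) +
        (-2 * a2 * v) * sin x ^ (2 * (k + 1) + 1)) +
      (a1 * u * (sin x ^ (2 * k) * cos x) + (a1 * v + 2 * b2 * u) * (sin x ^ (2 * k + 1) * cos x) +
        2 * b2 * v * (sin x ^ (2 * k + 2) * cos x)) := by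
    intro x
    rw [cos_two_mul', sin_two_mul]
    have h := sin_sq_add_cos_sq x
    have h2 : cos x ^ 2 = 1 - sin x ^ 2 := by linarith
    rw [h2]
    ring
  simp_rw [e]
  have c1 : ∀ (c : ℝ) (j : ℕ), IntervalIntegrable (fun x => c * sin x ^ j) volume (-π) π :=
    fun c j => (by fun_prop : Continuous fun x => c * sin x ^ j).intervalIntegrable _ _
  have c2 : ∀ (c : ℝ) (j : ℕ),
      IntervalIntegrable (fun x => c * (sin x ^ j * cos x)) volume (-π) π :=
    fun c j => (by fun_prop : Continuous fun x => c * (sin x ^ j * cos x)).intervalIntegrable _ _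
  rw [intervalIntegral.integral_add ((((c1 _ _).add (c1 _ _)).add (c1 _ _)).add (c1 _ _))
      (((c2 _ _).add (c2 _ _)).add (c2 _ _)),
    intervalIntegral.integral_add (((c1 _ _).add (c1 _ _)).add (c1 _ _)) (c1 _ _),
    intervalIntegral.integral_add ((c1 _ _).add (c1 _ _)) (c1 _ _),
    intervalIntegral.integral_add (c1 _ _) (c1 _ _),
    intervalIntegral.integral_add ((c2 _ _).add (c2 _ _)) (c2 _ _),
    intervalIntegral.integral_add (c2 _ _) (c2 _ _)]
  simp only [intervalIntegral.integral_const_mul, int_odd, int_cos]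
  unfold I
  ring

/-! ### Quadratures of degree two -/

theorem trig_two {p : ℝ → ℝ} (hp : IsTrigPoly 2 p) : ∃ a0 a1 b1 a2 b2 : ℝ, ∀ x,
    p x = a0 + a1 * cos x + b1 * sin x + a2 * cos (2 * x) + b2 * sin (2 * x) := by
  obtain ⟨a, b, h⟩ := hp
  refine ⟨a 0, a 1, b 1, a 2, b 2, fun x => ?_⟩
  rw [h x]
  simp [sum_range_succ]
  ring

theorem trig_of (a0 a1 b1 a2 b2 : ℝ) : IsTrigPoly 2 fun x =>
    a0 + a1 * cos x + b1 * sin x + a2 * cos (2 * x) + b2 * sin (2 * x) := by
  refine ⟨fun k => if k = 0 then a0 else if k = 1 then a1 else a2,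
    fun k => if k = 1 then b1 else b2, fun x => ?_⟩
  simp [sum_range_succ]
  ring

/-- our weights -/
noncomputable def wt (k : ℕ) (u v : ℝ) (x : ℝ) : ℝ := u * sin x ^ (2 * k) + v * sin x ^ (2 * k + 1)

/-- a (possibly unordered) family of nodes which has the right sums gives a quadrature -/
theorem quad_of {ι : Type} [Fintype ι] (k : ℕ) (u v : ℝ) (θ : ι → ℝ) (w : ℝ)
    (h0 : u * I k = w * Fintype.card ι) (h1 : ∑ i, cos (θ i) = 0)
    (h2 : v * I (k + 1) = w * ∑ i, sin (θ i))
    (h3 : u * I k - 2 * u * I (k + 1) = w * ∑ i, cos (2 * θ i)) (h4 : ∑ i, sin (2 * θ i) = 0) :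
    HasQuadrature (wt k u v) 2 (Fintype.card ι) := by
  classical
  set e : Fin (Fintype.card ι) ≃ ι := (Fintype.equivFin ι).symm with he
  set f : Fin (Fintype.card ι) → ℝ := θ ∘ e with hf
  refine ⟨f ∘ Tuple.sort f, w, Tuple.monotone_sort f, fun p hp => ?_⟩
  obtain ⟨a0, a1, b1, a2, b2, hp⟩ := trig_two hp
  have hs : ∑ j, p ((f ∘ Tuple.sort f) j) = ∑ i, p (θ i) := by
    have h5 : ∑ j, p ((f ∘ Tuple.sort f) j) = ∑ j, p (f j) :=
      Equiv.sum_comp (Tuple.sort f) (fun j => p (f j))
    rw [h5]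
    exact Equiv.sum_comp e (fun i => p (θ i))
  rw [hs]
  have hi : ∫ x in (-π)..π, p x * wt k u v x =
      (a0 + a2) * u * I k + (b1 * v - 2 * a2 * u) * I (k + 1) := by
    simp_rw [hp, wt]
    exact int_main k u v a0 a1 b1 a2 b2
  rw [hi]
  simp_rw [hp]
  simp only [sum_add_distrib, ← mul_sum, h1, h4, sum_const, card_univ, nsmul_eq_mul]
  linear_combination (a0) * h0 + b1 * h2 + a2 * h3

/-- the three sums over the nodes of a quadrature -/
theorem sums_of {k N : ℕ} {u v : ℝ} {θ : Fin N → ℝ} {w : ℝ}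
    (h : ∀ p : ℝ → ℝ, IsTrigPoly 2 p → ∫ x in (-π)..π, p x * wt k u v x = w * ∑ j, p (θ j)) :
    u * I k = w * N ∧ v * I (k + 1) = w * ∑ i, sin (θ i) ∧
      u * I k - u * I (k + 1) = w * ∑ i, cos (θ i) ^ 2 := by
  have g : ∀ a0 a1 b1 a2 b2 : ℝ, _ := fun a0 a1 b1 a2 b2 => h _ (trig_of a0 a1 b1 a2 b2)
  refine ⟨?_, ?_, ?_⟩
  · have h1 := g 1 0 0 0 0
    have h2 := int_main k u v 1 0 0 0 0
    unfold wt at h1
    rw [h2] at h1
    simp at h1
    linarith
  · have h1 := g 0 0 1 0 0
    have h2 := int_main k u v 0 0 1 0 0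
    unfold wt at h1
    rw [h2] at h1
    simp at h1
    linarith
  · have h1 := g (1 / 2) 0 0 (1 / 2) 0
    have h2 := int_main k u v (1 / 2) 0 0 (1 / 2) 0
    unfold wt at h1
    rw [h2] at h1
    have h3 : ∀ x : ℝ, 1 / 2 + 0 * cos x + 0 * sin x + 1 / 2 * cos (2 * x) + 0 * sin (2 * x) =
        cos x ^ 2 := by
      intro x
      rw [cos_two_mul]
      ring
    simp only [h3] at h1
    linarith

/-- few nodes cannot have a small nonzero mean value of `sin` if they are all near `± π / 2` -/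
theorem no_few {N : ℕ} (θ : Fin N → ℝ) (κ β : ℝ) (h1 : ∑ i, cos (θ i) ^ 2 = N * κ)
    (h2 : ∑ i, sin (θ i) = N * β) (hβ : κ < β) (hN : 0 < N) : 1 ≤ N * (β + κ) := by
  have hN' : (0 : ℝ) < N := by exact_mod_cast hN
  set ε : Fin N → ℤ := fun i => if 0 ≤ sin (θ i) then 1 else -1 with hε
  have h3 : ∀ i, |sin (θ i) - (ε i : ℝ)| ≤ cos (θ i) ^ 2 := by
    intro i
    have hs := sin_sq_add_cos_sq (θ i)
    have l1 := sin_le_one (θ i)
    have l2 := neg_one_le_sin (θ i)
    by_cases h : 0 ≤ sin (θ i)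
    · have e : ε i = 1 := by simp [hε, h]
      rw [e, abs_le]
      push_cast
      constructor <;> nlinarith
    · have e : ε i = -1 := by simp [hε, h]
      push Not at h
      rw [e, abs_le]
      push_cast
      constructor <;> nlinarith
  have h4 : |∑ i, (sin (θ i) - (ε i : ℝ))| ≤ N * κ := by
    rw [← h1]
    exact (abs_sum_le_sum_abs _ _).trans (sum_le_sum fun i _ => h3 i)
  rw [sum_sub_distrib, h2, abs_le] at h4
  set D : ℤ := ∑ i, ε i with hD
  have h5 : ∑ i, (ε i : ℝ) = (D : ℝ) := by rw [hD]; push_cast; rfl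
  rw [h5] at h4
  have h6 : (0 : ℝ) < D := by nlinarith [h4.2]
  have h7 : 1 ≤ D := by exact_mod_cast h6
  have h8 : (1 : ℝ) ≤ D := by exact_mod_cast h7
  linarith [h4.1]


/-- nodes `π / 2 ± b` (each `r` times) and `-π / 2 ± b` (each `s` times) -/
theorem quad_rs (k r s : ℕ) (u v w b : ℝ) (h0 : u * I k = w * (2 * (r + s)))
    (h2 : v * I (k + 1) = w * (2 * (r - s) * cos b))
    (h3 : u * I k - 2 * u * I (k + 1) = -w * (2 * (r + s) * cos (2 * b))) :
    HasQuadrature (wt k u v) 2 ((r + s) * 2) := by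
  set θ : (Fin r ⊕ Fin s) × Bool → ℝ := fun i =>
    (match i.1 with
      | Sum.inl _ => π / 2
      | Sum.inr _ => -(π / 2)) + (if i.2 then b else -b) with hθ
  have hc : Fintype.card ((Fin r ⊕ Fin s) × Bool) = (r + s) * 2 := by simp
  rw [← hc]
  have e1 : 2 * (π / 2 + b) = 2 * b + π := by ring
  have e2 : 2 * (π / 2 + -b) = -(2 * b) + π := by ring
  have e3 : 2 * (-(π / 2) + b) = 2 * b - π := by ring
  have e4 : 2 * (-(π / 2) + -b) = -(2 * b) - π := by ring
  have c1 : cos (π / 2 + b) = -sin b := by rw [cos_add]; simp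
  have c2 : cos (π / 2 + -b) = sin b := by rw [cos_add]; simp
  have c3 : cos (-(π / 2) + b) = sin b := by rw [cos_add]; simp
  have c4 : cos (-(π / 2) + -b) = -sin b := by rw [cos_add]; simp
  have s1 : sin (π / 2 + b) = cos b := by rw [sin_add]; simp
  have s2 : sin (π / 2 + -b) = cos b := by rw [sin_add]; simp
  have s3 : sin (-(π / 2) + b) = -cos b := by rw [sin_add]; simp
  have s4 : sin (-(π / 2) + -b) = -cos b := by rw [sin_add]; simp
  refine quad_of k u v θ w ?_ ?_ ?_ ?_ ?_
  · rw [h0, hc]; push_cast; ring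
  · simp [hθ, Fintype.sum_prod_type, c1, c2, c3, c4]
  · rw [h2]
    simp only [hθ, Fintype.sum_prod_type, Fintype.sum_bool, Fintype.sum_sum_type, if_true,
      Bool.false_eq_true, if_false, s1, s2, s3, s4, sum_const, card_univ, Fintype.card_fin,
      nsmul_eq_mul]
    ring
  · rw [h3]
    simp only [hθ, Fintype.sum_prod_type, Fintype.sum_bool, Fintype.sum_sum_type, if_true,
      Bool.false_eq_true, if_false, e1, e2, e3, e4, cos_add_pi, cos_sub_pi, cos_neg, sum_const,
      card_univ, Fintype.card_fin, nsmul_eq_mul]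
    ring
  · simp only [hθ, Fintype.sum_prod_type, Fintype.sum_bool, Fintype.sum_sum_type, if_true,
      Bool.false_eq_true, if_false, e1, e2, e3, e4, sin_add_pi, sin_sub_pi, sin_neg, sum_const,
      card_univ, Fintype.card_fin, nsmul_eq_mul]
    ring

theorem weight_wt (k : ℕ) : IsWeight (wt k 1 0) := by
  have e : wt k 1 0 = fun x => sin x ^ (2 * k) := by
    funext x
    simp [wt]
  rw [e]
  have hc : Continuous fun x : ℝ => sin x ^ (2 * k) := by fun_prop
  refine ⟨hc.measurable, fun x => ?_, fun x => ?_, hc.intervalIntegrable _ _, I_pos k⟩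
  · simp only [pow_mul]; positivity
  · simp

/-- **Main construction.** -/
theorem main (m M : ℝ) (hm : 0 < m) (hM : m < M) (K : ℕ) : ∃ W h : ℝ → ℝ,
    IsWeight W ∧ IsPerturbation m M h ∧ (∀ x, m < h x ∧ h x < M) ∧
    HasQuadrature W 2 4 ∧ minNodes W 2 ≤ 4 ∧ K < minNodes (fun x => h x * W x) 2 := by
  -- the parameters
  obtain ⟨q0, hq0⟩ := exists_nat_gt (2 * (M + m) / (M - m))
  set q : ℕ := max q0 (2 * K + 1) with hq
  have hMm : 0 < M - m := by linarith
  have hMp : 0 < M + m := by linarith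
  have hq1 : 2 * K + 1 ≤ q := le_max_right _ _
  have hq2 : 2 * (M + m) / (M - m) < q :=
    hq0.trans_le (by exact_mod_cast le_max_left _ _)
  have hqpos : 0 < q := by omega
  have hqr : (0 : ℝ) < q := by exact_mod_cast hqpos
  have hq1r : (2 : ℝ) * K + 1 ≤ q := by exact_mod_cast hq1
  set κ : ℝ := 1 / (2 * q + 2) with hκ
  have hκ0 : 0 < κ := by positivity
  have hκ1 : κ < 1 / (2 * q) := by
    apply one_div_lt_one_div_of_lt <;> linarith
  have hκ2 : κ ≤ 1 / 4 := by
    rw [hκ]
    apply one_div_le_one_div_of_le (by norm_num)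
    have : (1 : ℝ) ≤ q := by exact_mod_cast hqpos
    linarith
  have hI : I (q + 1) = (1 - κ) * I q := by
    rw [I_succ, hκ]
    congr 1
    field_simp
    ring
  have hIp := I_pos q
  set c : ℝ := sqrt (1 - κ) with hcdef
  have hc2 : c ^ 2 = 1 - κ := sq_sqrt (by linarith)
  have hc0 : 0 ≤ c := sqrt_nonneg _
  have hchalf : 1 / 2 < c := by nlinarith
  have hc1 : c ≤ 1 := by nlinarith
  set b : ℝ := arccos c with hb
  have hcb : cos b = c := cos_arccos (by linarith) hc1
  have hc2b : cos (2 * b) = 1 - 2 * κ := by rw [cos_two_mul, hcb, hc2]; ring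
  set A : ℝ := (m + M) / 2 with hA
  have hApos : 0 < A := by rw [hA]; linarith
  set η : ℝ := 1 / (q * c) with hη
  have hηpos : 0 < η := by positivity
  have hη1 : A * η < (M - m) / 2 := by
    have h1 : η < 2 / q := by
      rw [hη, div_lt_div_iff₀ (by positivity) hqr]
      nlinarith
    have h2 : 2 * (M + m) < q * (M - m) := by rwa [div_lt_iff₀ hMm] at hq2
    have h3 : A * η < A * (2 / q) := mul_lt_mul_of_pos_left h1 hApos
    have h4 : A * (2 / q) ≤ (M - m) / 2 := by
      rw [hA, mul_div_assoc', div_le_iff₀ hqr]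
      linarith
    linarith
  -- weight and perturbation
  have hfun : (fun x => (A * (1 + η * sin x)) * wt q 1 0 x) = wt q A (A * η) := by
    funext x
    unfold wt
    ring
  have hbound : ∀ x, m < A * (1 + η * sin x) ∧ A * (1 + η * sin x) < M := by
    intro x
    have l1 := sin_le_one x
    have l2 := neg_one_le_sin x
    have h1 : A * η * sin x ≤ A * η * 1 :=
      mul_le_mul_of_nonneg_left l1 (by positivity)
    have h2 : A * η * (-1) ≤ A * η * sin x :=
      mul_le_mul_of_nonneg_left l2 (by positivity)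
    constructor <;> nlinarith
  have hQ4 : HasQuadrature (wt q 1 0) 2 4 := by
    have := quad_rs q 1 1 1 0 (I q / 4) b (by push_cast; ring) (by push_cast; ring)
      (by rw [hI, hc2b]; push_cast; ring)
    simpa using this
  refine ⟨wt q 1 0, fun x => A * (1 + η * sin x), weight_wt q, ⟨?_, ?_, ?_⟩, hbound, hQ4,
    Nat.sInf_le hQ4, ?_⟩
  · exact (by fun_prop : Continuous fun x : ℝ => A * (1 + η * sin x)).measurable
  · intro x; simp
  · exact Filter.Eventually.of_forall hbound
  · simp only []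
    rw [hfun]
    -- the perturbed weight has a quadrature
    have hne : {N | HasQuadrature (wt q A (A * η)) 2 N}.Nonempty := by
      refine ⟨((q + 1) + (q - 1)) * 2, ?_⟩
      have hq' : ((q - 1 : ℕ) : ℝ) = q - 1 := by
        rw [Nat.cast_sub hqpos]; simp
      refine quad_rs q (q + 1) (q - 1) A (A * η) (A * I q / (4 * q)) b ?_ ?_ ?_
      · rw [hq']; push_cast; field_simp; ring
      · rw [hq', hcb, hI, ← hc2, hη]; push_cast; field_simp; ring
      · rw [hq', hI, hc2b]; push_cast; field_simp; ring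
    have hmem := Nat.sInf_mem hne
    change K < sInf {N | HasQuadrature (wt q A (A * η)) 2 N}
    set N := sInf {N | HasQuadrature (wt q A (A * η)) 2 N} with hN
    obtain ⟨θ, w, -, hθ⟩ := hmem
    obtain ⟨g1, g2, g3⟩ := sums_of hθ
    by_contra hlt
    push Not at hlt
    have hNr : (N : ℝ) ≤ K := by exact_mod_cast hlt
    have hN0 : 0 < N := by
      rcases Nat.eq_zero_or_pos N with h | h
      · rw [h] at g1
        have : 0 < A * I q := by positivity
        simp at g1
        rcases g1 with g1 | g1 <;> linarith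
      · exact h
    have hN0r : (0 : ℝ) < N := by exact_mod_cast hN0
    have hw : 0 < w := by
      have : 0 < w * N := by rw [← g1]; positivity
      exact (pos_iff_pos_of_mul_pos this).2 hN0r
    have hIq : A * I q = w * N := g1
    have t1 : ∑ i, cos (θ i) ^ 2 = N * κ := by
      have : w * ∑ i, cos (θ i) ^ 2 = w * (N * κ) := by
        rw [← g3, hI]
        linear_combination κ * hIq
      exact mul_left_cancel₀ hw.ne' this
    have t2 : ∑ i, sin (θ i) = N * (c / q) := by
      have h6 : η * (1 - κ) = c / q := by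
        rw [← hc2, hη]; field_simp
      have : w * ∑ i, sin (θ i) = w * (N * (c / q)) := by
        rw [← g2, hI, ← h6]
        linear_combination (η * (1 - κ)) * hIq
      exact mul_left_cancel₀ hw.ne' this
    have t3 : κ < c / q := by
      refine hκ1.trans ?_
      rw [div_lt_div_iff₀ (by positivity) hqr]
      nlinarith
    have t4 := no_few θ κ (c / q) t1 t2 t3 hN0
    have t5 : c / q ≤ 1 / q := by
      apply div_le_div_of_nonneg_right hc1 hqr.le
    have t6 : (N : ℝ) * (c / q + κ) ≤ K * (3 / (2 * q)) := by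
      apply mul_le_mul hNr _ (by positivity) (by positivity)
      have : 3 / (2 * (q : ℝ)) = 1 / q + 1 / (2 * q) := by field_simp; ring
      rw [this]
      linarith
    have t7 : (K : ℝ) * (3 / (2 * q)) < 1 := by
      rw [mul_div_assoc', div_lt_one (by positivity)]
      have : (0 : ℝ) ≤ K := by positivity
      linarith
    linarith

/-- For all `0 < m < M` the ratio `N_{hW}(2) / N_W(2)` is unbounded over all weights `W` and
perturbations `m < h < M`; in particular the statement of Q1 is false. -/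
theorem result : (∀ m M : ℝ, 0 < m → m < M → ∀ K : ℕ, ∃ W h : ℝ → ℝ,
    IsWeight W ∧ IsPerturbation m M h ∧ HasQuadrature W 2 4 ∧
      minNodes W 2 ≤ 4 ∧ K < minNodes (fun x => h x * W x) 2) ∧ ¬ Q1 := by
  refine ⟨fun m M hm hM K => ?_, fun hQ => ?_⟩
  · obtain ⟨W, h, h1, h2, -, h3, h4, h5⟩ := main m M hm hM K
    exact ⟨W, h, h1, h2, h3, h4, h5⟩
  · obtain ⟨c, C, -, hC, H⟩ := hQ 1 2 one_pos one_lt_two
    obtain ⟨K, hK⟩ := exists_nat_gt (C * 4)
    obtain ⟨W, h, h1, h2, -, -, h4, h5⟩ := main 1 2 one_pos one_lt_two K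
    have h6 := (H W h h1 h2 2 one_le_two).1.2
    have h7 : (minNodes W 2 : ℝ) ≤ 4 := by exact_mod_cast h4
    have h8 : (K : ℝ) < minNodes (fun x => h x * W x) 2 := by exact_mod_cast h5
    have h9 : C * minNodes W 2 ≤ C * 4 := mul_le_mul_of_nonneg_left h7 hC.le
    linarith

end Pool.Agent.Results.MP_205740_an.UnboundedRatio
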